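import Mathlib
import Pool.Agent.K6.H70.LD.Det
import Pool.Agent.Results.MP_4f0cf1_nt.Full

/-!
The determinant `E_p` for primes `p` congruent to `3` modulo `4`, `p > 3`: its closed form, with an
integer `q_p` in the coefficient of `w x`.
-/

set_option autoImplicit false

namespace Pool.Agent.Results.MP_fe1d70_nt.SunThreeModFour

open Finset NumberField Module
open Pool.Agent.R945.LD (q Bm xv q_sq two_ne)

/-- The determinant `E_p` at `x, y, w`: the entry in row `j` and column `k`,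
`1 ≤ j, k ≤ (p-1)/2`, is `x + (j+k|p) + (j-k|p) + (j|p) y + (jk|p) w`. -/
noncomputable def E (p : ℕ) [Fact p.Prime] {R : Type} [CommRing R] (x y w : R) : R :=
  Matrix.det (Matrix.of fun j k : Fin ((p - 1) / 2) =>
    x + (legendreSym p (((j : ℤ) + 1) + ((k : ℤ) + 1)) : R)
      + (legendreSym p (((j : ℤ) + 1) - ((k : ℤ) + 1)) : R)
      + (legendreSym p ((j : ℤ) + 1) : R) * y
      + (legendreSym p (((j : ℤ) + 1) * ((k : ℤ) + 1)) : R) * w)

/-- For every prime `p ≡ 3 (mod 4)`, `p > 3`, there is an integer `q_p` such that, with `h` the class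
number of `ℚ(√-p)` and `n = (p-1)/2`,
`(-1)^((h+1)/2) E_p = p^((p-3)/4) (n y - 1 + (2 - (2|p)) h (w + x) - (2|p) (16 q_p / p) w x)`
for all elements `x, y, w` of every commutative `ℚ`-algebra, in particular for indeterminates. -/
theorem result (p : ℕ) [Fact p.Prime] (h3 : p % 4 = 3) (h5 : 3 < p) :
    ∃ qp : ℤ, ∀ (K : Type) [Field K] [NumberField K], finrank ℚ K = 2 →
      (∃ β : K, β ^ 2 = -(p : K)) →
      ∀ (R : Type) [CommRing R] [Algebra ℚ R] (x y w : R),
        (-1) ^ ((classNumber K + 1) / 2) * E p x y w =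
          (p : R) ^ ((p - 3) / 4) *
            ((((p - 1) / 2 : ℕ) : R) * y - 1 +
              (2 - (legendreSym p 2 : R)) * (classNumber K : R) * (w + x) -
              (legendreSym p 2 : R) * algebraMap ℚ R (16 * (qp : ℚ) / (p : ℚ)) * (w * x)) := by
  have hpp : p.Prime := Fact.out
  obtain ⟨m, hm⟩ : ∃ m, p = 2 * m + 1 := ⟨p / 2, by omega⟩
  have hm1 : (p - 1) / 2 = m := by omega
  have hL : ∀ a : ℤ, legendreSym p a = q p (a : ZMod p) := fun a => rfl
  obtain ⟨t, ht⟩ := Pool.Agent.K6.H70.LD.KK_dvd h3 hm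
  refine ⟨legendreSym p 2 * t, ?_⟩
  intro K _ _ h2 ⟨β, hβ⟩ R _ _ x y w
  have hS := Pool.Agent.Results.MP_4f0cf1_nt.Full.half_sum p (by omega) h3 m hm K h2 β hβ
  have hl2 : legendreSym p 2 = q p 2 := by rw [hL]; push_cast; rfl
  have hq2 : q p 2 * q p 2 = 1 := q_sq (two_ne (by omega))
  have hodd : Odd (classNumber K) := by
    have hpar : (2 : ℤ) ∣ ∑ j, xv p m ℤ j - m := by
      have : ∑ j, xv p m ℤ j - m = ∑ j : Fin m, (xv p m ℤ j - 1) := by
        rw [Finset.sum_sub_distrib]; simp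
      rw [this]
      apply Finset.dvd_sum
      intro j _
      rcases mul_self_eq_one_iff.mp (Pool.Agent.R945.LD.xv_sq (R := ℤ) hm j) with h | h
      · rw [h]; norm_num
      · rw [h]; norm_num
    by_contra hne
    rw [Nat.not_odd_iff_even] at hne
    obtain ⟨s, hs⟩ := hne
    obtain ⟨u, hu⟩ := hpar
    rw [hS, hs] at hu
    push_cast at hu
    have hmo : (m : ℤ) = 2 * ((2 - q p 2) * s - u) := by linarith
    omega
  have hmain := Pool.Agent.K6.H70.LD.E_formula h3 h5 hm (classNumber K) hS hodd x y w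
  have hE : E p x y w = (Matrix.of fun j k : Fin m => x + Bm p m R j k + xv p m R j * y
      + xv p m R j * xv p m R k * w).det := by
    unfold E
    rw [hm1]
    congr 1
    ext j k
    simp only [Matrix.of_apply, Bm, xv, Pool.Agent.R945.LD.J, hL]
    push_cast
    rw [Pool.Agent.R945.LD.q_mul]
    push_cast
    ring
  rw [hE, hmain, hm1, hl2]
  have hK : (Pool.Agent.K6.H70.LD.KK p m : ℚ) / p = (q p 2 : ℚ) * (16 * ((q p 2 * t : ℤ) : ℚ) / (p : ℚ)) := by
    rw [ht]
    have : ((q p 2 : ℤ) : ℚ) * (q p 2 : ℚ) = 1 := by exact_mod_cast hq2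
    push_cast
    linear_combination (-(16 * (t : ℚ) / p)) * this
  rw [hK, map_mul]
  have hqR : algebraMap ℚ R ((q p 2 : ℤ) : ℚ) = ((q p 2 : ℤ) : R) := by simp
  rw [hqR]
  ring

end Pool.Agent.Results.MP_fe1d70_nt.SunThreeModFour
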